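import Pool.Agent.H68.OWN.Hop2

/-!
# Hops of a vector

`hop_dir`: the copy of a line given the ball `G` at the time `T₁` displaces the coordinate `n` by
`(c' - c) ((τ - T₁) / M) ^ k`, and has at most `N` possible values of the record `Z (line, τ)`. If
`|c' - c| ≥ m₀` with probability at least `1 / R`, then for a law of density at most `R` the entropy
of `n` given the time and the record is at least `log m₀`, up to the errors.

`two_dir`: two coordinates of a vector.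
-/

set_option autoImplicit false

namespace Pool.VH64

open Finset Real
open Pool.Agent.H49.Ent Pool.Agent.H32.Dense Pool.STK Pool.OWN68

/-- A variable with few values given another one. -/
theorem CH_le_few {Ω S T : Type} [Fintype Ω] {p : Ω → ℝ} (hp : IsLaw p) (A : Ω → S) (Z : Ω → T)
    {N : ℕ} (F : T → Finset S) (hc : ∀ z, (F z).card ≤ N) (hA : ∀ ω, 0 < p ω → A ω ∈ F (Z ω)) :
    CH p A Z ≤ Real.log N := by
  classical
  have h := CH_le_card hp.nonneg hp.sum_one A Z F hA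
  refine h.trans ?_
  rw [← Ex_const hp.sum_one (Real.log N)]
  refine Ex_mono hp.nonneg fun ω hω => ?_
  have h1 : 0 < (F (Z ω)).card := Finset.card_pos.mpr ⟨_, hA ω hω⟩
  exact Real.log_le_log (by exact_mod_cast h1) (by exact_mod_cast hc _)

/-- A record with few values is added to the condition. -/
theorem CH_record {Ω S T U : Type} [Fintype Ω] {p : Ω → ℝ} (hp : IsLaw p) (A : Ω → S) (W : Ω → U)
    (B : Ω → T) {N : ℕ} (F : T → Finset U) (hc : ∀ z, (F z).card ≤ N)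
    (hW : ∀ ω, 0 < p ω → W ω ∈ F (B ω)) :
    CH p A B ≤ CH p A (fun ω => (W ω, B ω)) + Real.log N := by
  have h1 := CH_cond_add hp.nonneg A W B
  have h2 := CH_le_few hp W B F hc hW
  linarith

open Classical in
/-- **A hop in a direction.** -/
theorem hop_dir {Ω Λ Γ 𝒵 : Type} [Fintype Ω] {p : Ω → ℝ} (hp : IsLaw p) {k M K N : ℕ}
    (hk : k = 1 ∨ k = 2) (hM : 1 ≤ M) (L : Ω → Λ) (t : Ω → ℤ) (G : Ω → Γ) (Z : Λ → ℤ → 𝒵)
    (c : Λ → ℝ) (n : Λ → ℤ → ℤ) {m₀ R e : ℝ} (hm₀ : 0 < m₀) (hmM : m₀ ≤ M) (hR : 0 < R)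
    (he : 0 ≤ e) (ht : ∀ ω, 0 < p ω → |t ω| ≤ (M : ℤ))
    (F : 𝒵 → Finset 𝒵) (hF : ∀ z, (F z).card ≤ N)
    (hG : ∀ ω ω', 0 < p ω → 0 < p ω' → G ω = G ω' →
      ∀ τ : ℤ, |τ| ≤ (M : ℤ) → Z (L ω') τ ∈ F (Z (L ω) τ) ∧ |((n (L ω') τ : ℝ) - n (L ω) τ) -
        (c (L ω') - c (L ω)) * (((τ : ℝ) - t ω) / M) ^ k| ≤ K)
    (hfull : Real.log (2 * M + 1) - e ≤ CH p t L)
    (hbig : 1 / R ≤ ∑ w, (if m₀ ≤ |c (L w.2) - c (L w.1)| then glue p p G G w else 0)) :
    ∃ q : Ω → ℝ, IsLaw q ∧ (∀ ω, q ω ≤ R * p ω) ∧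
      Real.log m₀ - R * (3 * e + Real.log 2) -
        Real.log ((2 + 16 * K) * (1 + Real.log (2 * M + 1))) - Real.log N ≤
      CH q (fun ω => n (L ω) (t ω)) (fun ω => (t ω, Z (L ω) (t ω))) := by
  have h0 := hp.nonneg
  set P1 := glue p p G G with hP1
  have hP1law : IsLaw P1 := ⟨glue_nonneg h0 h0, by rw [hP1, sum_glue h0 (fun _ => rfl), hp.sum_one]⟩
  set E1 : Ω × Ω → Prop := fun w => m₀ ≤ |c (L w.2) - c (L w.1)| with hE1
  have el1 : ∑ w, (if m₀ ≤ |c (L w.2) - c (L w.1)| then P1 w else 0) = law P1 E1 True := by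
    unfold law
    refine Finset.sum_congr rfl fun w _ => ?_
    simp only [hE1, eq_iff_iff, iff_true]
  rw [el1] at hbig
  have hR' : 0 < 1 / R := by positivity
  -- the second gluing
  have hZ2 : ∀ z, law P1 (fun w => L w.2) z = law p L z := fun z => by
    rw [hP1]
    exact law_glue_snd h0 (fun _ => rfl) L z
  set P2 := glue P1 p (fun w => L w.2) L with hP2
  have hP2law : IsLaw P2 :=
    ⟨glue_nonneg hP1law.nonneg h0, by rw [hP2, sum_glue hP1law.nonneg hZ2, hP1law.sum_one]⟩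
  set E : (Ω × Ω) × Ω → Prop := fun u => E1 u.1 with hE
  have hEl : law P2 E True = law P1 E1 True := by
    rw [hP2]
    exact law_glue_fst hP1law.nonneg hZ2 E1 True
  have hEc : 1 / R ≤ law P2 E True := by rw [hEl]; exact hbig
  have hE0 : 0 < law P2 E True := hR'.trans_le hEc
  set Q := cond P2 E True with hQ
  have hQlaw : IsLaw Q := ⟨cond_nonneg hP2law.nonneg E True, sum_cond P2 E hE0.ne'⟩
  have hsup : ∀ u, 0 < Q u → 0 < p u.1.1 ∧ 0 < p u.1.2 ∧ 0 < p u.2 ∧ G u.1.1 = G u.1.2 ∧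
      L u.1.2 = L u.2 ∧ m₀ ≤ |c (L u.1.2) - c (L u.1.1)| := by
    intro u hu
    obtain ⟨h1, h2⟩ := (cond_pos_iff hP2law.nonneg E True u).mp hu
    obtain ⟨h3, h4, h5⟩ := (glue_pos_iff hP1law.nonneg h0 u).mp h1
    obtain ⟨h6, h7, h8⟩ := (glue_pos_iff h0 h0 u.1).mp h3
    exact ⟨h6, h7, h4, h8, h5, of_eq_true h2⟩
  -- the time of the copy
  have ha : Real.log (2 * M + 1) - R * e ≤
      CH Q (fun u => t u.2) (fun u => ((L u.1.2, t u.1.1), L u.1.1)) := by
    have h1 : CH P2 (fun u => t u.2) (fun u => (L u.2, u.1)) = CH p t L := by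
      rw [hP2]
      exact CH_glue_snd hP1law.nonneg h0 hZ2 t (Y := L) (fun w => w) (fun _ _ _ _ h => h)
    have h2 := deficit_ev hP2law (fun u => t u.2) (fun u => (L u.2, u.1))
      (L := Real.log (2 * M + 1)) (e := e) hR' he
      (fun q hq hqp => CH_le_box hq _ _ fun u hu => by
        have h3 := hqp u hu
        exact ht _ ((glue_pos_iff hP1law.nonneg h0 u).mp h3).2.1)
      (by rw [h1]; exact hfull) E (fun u u' hz => by
        have h3 := (Prod.ext_iff.mp hz).2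
        show E1 u.1 ↔ E1 u'.1
        rw [show u.1 = u'.1 from h3]) hEc
    have h3 : e / (1 / R) = R * e := by
      field_simp
    rw [h3] at h2
    refine h2.trans (CH_mono_cond hQlaw.nonneg fun u u' _ _ hz => ?_)
    have h4 : u.1 = u'.1 := (Prod.ext_iff.mp hz).2
    show ((L u.1.2, t u.1.1), L u.1.1) = ((L u'.1.2, t u'.1.1), L u'.1.1)
    rw [h4]
  -- the time of the hop
  have hb : Real.log (2 * M + 1) - R * (e + Real.log 2) ≤
      CH Q (fun u => t u.1.1) (fun u => L u.1.1) := by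
    have h1 : CH P2 (fun u => t u.1.1) (fun u => L u.1.1) = CH p t L := by
      unfold CH
      rw [hP2, H_glue_fst hP1law.nonneg hZ2 (fun w => (t w.1, L w.1)),
        H_glue_fst hP1law.nonneg hZ2 (fun w => L w.1), hP1,
        H_glue_fst h0 (fun _ => rfl) (fun ω => (t ω, L ω)), H_glue_fst h0 (fun _ => rfl) L]
    have h2 := deficit_ev2 hP2law (fun u => t u.1.1) (fun u => L u.1.1)
      (L := Real.log (2 * M + 1)) (e := e) hR' he
      (fun q hq hqp => CH_le_box hq _ _ fun u hu => by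
        have h3 := hqp u hu
        have h4 := ((glue_pos_iff hP1law.nonneg h0 u).mp h3).1
        exact ht _ ((glue_pos_iff h0 h0 u.1).mp h4).1)
      (by rw [h1]; exact hfull) E hEc
    have h3 : (e + Real.log 2) / (1 / R) = R * (e + Real.log 2) := by
      field_simp
    rwa [h3] at h2
  -- the entropy of the copy
  have hc := hop_core hQlaw hk hM (fun u => L u.1.1) (fun u => L u.1.2) (fun u => t u.1.1)
    (fun u => t u.2) c n hm₀ hmM (fun u hu => ht _ (hsup u hu).2.2.1)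
    (fun u hu => ht _ (hsup u hu).1) (fun u hu => (hsup u hu).2.2.2.2.2)
    (fun u hu τ hτ => (hG _ _ (hsup u hu).1 (hsup u hu).2.1 (hsup u hu).2.2.2.1 τ hτ).2)
  -- the record is added
  have hr := CH_record hQlaw (fun u => n (L u.1.2) (t u.2)) (fun u => Z (L u.1.2) (t u.2))
    (fun u => (t u.2, L u.1.1)) (fun b => F (Z b.2 b.1)) (fun b => hF _) (fun u hu =>
      (hG _ _ (hsup u hu).1 (hsup u hu).2.1 (hsup u hu).2.2.2.1 _ (ht _ (hsup u hu).2.2.1)).1)
  have hd : CH Q (fun u => n (L u.1.2) (t u.2)) (fun u => (Z (L u.1.2) (t u.2),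
      (t u.2, L u.1.1))) ≤ CH (fun ω => law Q (fun u => u.2) ω) (fun ω => n (L ω) (t ω))
        (fun ω => (t ω, Z (L ω) (t ω))) := by
    have e1 : ∀ u, 0 < Q u → L u.1.2 = L u.2 := fun u hu => (hsup u hu).2.2.2.2.1
    have h1 : CH Q (fun u => n (L u.1.2) (t u.2)) (fun u => (Z (L u.1.2) (t u.2),
        (t u.2, L u.1.1))) ≤
        CH Q (fun u => n (L u.1.2) (t u.2)) (fun u => (t u.2, Z (L u.1.2) (t u.2))) :=
      CH_mono_cond hQlaw.nonneg fun u u' _ _ hz => by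
        have h2 := Prod.ext_iff.mp hz
        have h3 := Prod.ext_iff.mp h2.2
        exact Prod.ext h3.1 h2.1
    have h2 : CH Q (fun u => n (L u.1.2) (t u.2)) (fun u => (t u.2, Z (L u.1.2) (t u.2))) =
        CH Q (fun u => n (L u.2) (t u.2)) (fun u => (t u.2, Z (L u.2) (t u.2))) := by
      refine CH_congr hQlaw.nonneg ?_ ?_ ?_ ?_
      · intro u u' hu hu' hz
        have h3 : n (L u.1.2) (t u.2) = n (L u'.1.2) (t u'.2) := (Prod.ext_iff.mp hz).1
        rwa [e1 u hu, e1 u' hu'] at h3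
      · intro u u' hu hu' hz
        have h3 : n (L u.2) (t u.2) = n (L u'.2) (t u'.2) := (Prod.ext_iff.mp hz).1
        show n (L u.1.2) (t u.2) = n (L u'.1.2) (t u'.2)
        rw [e1 u hu, e1 u' hu']
        exact h3
      · intro u u' hu hu' hz
        have h3 := Prod.ext_iff.mp hz
        have h4 : Z (L u.1.2) (t u.2) = Z (L u'.1.2) (t u'.2) := h3.2
        rw [e1 u hu, e1 u' hu'] at h4
        exact Prod.ext h3.1 h4
      · intro u u' hu hu' hz
        have h3 := Prod.ext_iff.mp hz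
        have h4 : Z (L u.2) (t u.2) = Z (L u'.2) (t u'.2) := h3.2
        rw [← e1 u hu, ← e1 u' hu'] at h4
        exact Prod.ext h3.1 h4
    have h3 : CH Q (fun u => n (L u.2) (t u.2)) (fun u => (t u.2, Z (L u.2) (t u.2))) =
        CH (fun ω => law Q (fun u => u.2) ω) (fun ω => n (L ω) (t ω))
          (fun ω => (t ω, Z (L ω) (t ω))) := by
      unfold CH
      rw [← H_eq_of_marginal (q := Q) (p := fun ω => law Q (fun u => u.2) ω) (fun u => u.2)
        (fun ω => rfl) (fun ω => (n (L ω) (t ω), (t ω, Z (L ω) (t ω)))),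
        ← H_eq_of_marginal (q := Q) (p := fun ω => law Q (fun u => u.2) ω) (fun u => u.2)
        (fun ω => rfl) (fun ω => (t ω, Z (L ω) (t ω)))]
    rw [h2, h3] at h1
    exact h1
  refine ⟨fun ω => law Q (fun u => u.2) ω, ⟨fun ω => law_nonneg hQlaw.nonneg _ _, ?_⟩,
    fun ω => ?_, ?_⟩
  · have h4 : ∑ ω, law Q (fun u => u.2) ω = ∑ u, Q u := by
      unfold law
      rw [Finset.sum_comm]
      refine Finset.sum_congr rfl fun u _ => ?_
      rw [Finset.sum_ite_eq]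
      simp
    rw [h4, hQlaw.sum_one]
  · have h4 : law Q (fun u => u.2) ω ≤ R * law P2 (fun u => u.2) ω := by
      unfold law
      rw [Finset.mul_sum]
      refine Finset.sum_le_sum fun u _ => ?_
      by_cases hu : u.2 = ω
      · rw [if_pos hu, if_pos hu, hQ]
        unfold Pool.Agent.H49.Ent.cond
        split_ifs
        · rw [div_le_iff₀ hE0]
          have h5 : 1 ≤ R * law P2 E True := by
            have := mul_le_mul_of_nonneg_left hEc hR.le
            rwa [mul_one_div_cancel hR.ne'] at this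
          nlinarith [hP2law.nonneg u]
        · exact mul_nonneg hR.le (hP2law.nonneg u)
      · rw [if_neg hu, if_neg hu, mul_zero]
    have h5 : law P2 (fun u => u.2) ω = p ω := by
      rw [hP2, law_glue_snd h0 hZ2 (fun ω => ω) ω]
      unfold law
      rw [Finset.sum_ite_eq']
      simp
    rwa [h5] at h4
  · nlinarith [hc, hd, ha, hb, hr]

/-- A function of the variable is added. -/
theorem CH_fun {Ω S T U : Type} [Fintype Ω] {p : Ω → ℝ} (h0 : ∀ ω, 0 ≤ p ω) (X : Ω → S)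
    (A : S → T) (Z : Ω → U) :
    CH p X Z = CH p (fun ω => A (X ω)) Z + CH p X (fun ω => (A (X ω), Z ω)) := by
  rw [← CH_chain2 h0 (fun ω => A (X ω)) X Z]
  refine CH_congr h0 ?_ ?_ (fun _ _ _ _ h => h) (fun _ _ _ _ h => h)
  · intro ω ω' _ _ hz
    have h4 : X ω = X ω' := (Prod.ext_iff.mp hz).1
    show (A (X ω), X ω) = (A (X ω'), X ω')
    rw [h4]
  · intro ω ω' _ _ hz
    exact (Prod.ext_iff.mp (Prod.ext_iff.mp hz).1).2

/-- **Two directions.** If `X` has few bits given the two coordinates `A`, `B`, the entropies of the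
fibres add up. -/
theorem two_dir {Ω S T U W : Type} [Fintype Ω] {p : Ω → ℝ} (h0 : ∀ ω, 0 ≤ p ω) (X : Ω → S)
    (A : S → T) (B : S → U) (Z : Ω → W) :
    CH p X (fun ω => (A (X ω), Z ω)) + CH p X (fun ω => (B (X ω), Z ω)) ≤
      CH p X Z + CH p X (fun ω => (A (X ω), (B (X ω), Z ω))) := by
  have h1 := CH_fun h0 X A Z
  have h2 := CH_fun h0 X A (fun ω => (B (X ω), Z ω))
  have h3 : CH p (fun ω => A (X ω)) (fun ω => (B (X ω), Z ω)) ≤ CH p (fun ω => A (X ω)) Z :=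
    CH_mono_cond h0 fun ω ω' _ _ hz => (Prod.ext_iff.mp hz).2
  linarith

/-- Integer points in a parallelogram. -/
theorem card_par {a1 a2 b1 b2 D : ℝ} (_ha1 : |a1| ≤ 1) (ha2 : |a2| ≤ 1) (_hb1 : |b1| ≤ 1)
    (hb2 : |b2| ≤ 1) (hD : 0 < D) (hD1 : D ≤ 1) (hab : D ≤ |a1 * b2 - a2 * b1|) (h2 : 1 / 2 ≤ |a2|)
    (F : Finset (ℤ × ℤ)) (hF : ∀ v ∈ F, ∀ w ∈ F, ⌊a1 * v.1 + a2 * v.2⌋ = ⌊a1 * w.1 + a2 * w.2⌋ ∧
      ⌊b1 * v.1 + b2 * v.2⌋ = ⌊b1 * w.1 + b2 * w.2⌋) : (F.card : ℝ) ≤ 25 / D := by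
  classical
  rcases F.eq_empty_or_nonempty with h | ⟨v0, hv0⟩
  · rw [h]
    simp
    positivity
  -- a map to a box
  have hnear : ∀ {x y : ℝ}, ⌊x⌋ = ⌊y⌋ → |x - y| < 1 := fun h => Int.abs_sub_lt_one_of_floor_eq_floor h
  have k1 : ∀ v ∈ F, |((v.1 - v0.1 : ℤ) : ℝ)| ≤ 2 / D := by
    intro v hv
    obtain ⟨h1, h3⟩ := hF v hv v0 hv0
    have e1 := hnear h1
    have e2 := hnear h3
    set x : ℝ := ((v.1 - v0.1 : ℤ) : ℝ) with hx
    set y : ℝ := ((v.2 - v0.2 : ℤ) : ℝ) with hy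
    have e3 : |a1 * x + a2 * y| ≤ 1 := by
      refine le_of_eq_of_le ?_ e1.le
      rw [hx, hy]
      push_cast
      congr 1
      ring
    have e4 : |b1 * x + b2 * y| ≤ 1 := by
      refine le_of_eq_of_le ?_ e2.le
      rw [hx, hy]
      push_cast
      congr 1
      ring
    have e5 : |(a1 * b2 - a2 * b1) * x| ≤ 2 := by
      have e6 : (a1 * b2 - a2 * b1) * x = b2 * (a1 * x + a2 * y) - a2 * (b1 * x + b2 * y) := by ring
      rw [e6]
      refine (abs_sub _ _).trans ?_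
      rw [abs_mul, abs_mul]
      have e7 := mul_le_mul hb2 e3 (abs_nonneg _) zero_le_one
      have e8 := mul_le_mul ha2 e4 (abs_nonneg _) zero_le_one
      linarith
    rw [abs_mul] at e5
    rw [le_div_iff₀ hD]
    have e9 := mul_le_mul_of_nonneg_right hab (abs_nonneg x)
    linarith
  have k2 : ∀ v ∈ F, ∀ w ∈ F, v.1 = w.1 → |v.2 - w.2| ≤ 2 := by
    intro v hv w hw hvw
    obtain ⟨h1, -⟩ := hF v hv w hw
    have e1 := hnear h1
    rw [hvw] at e1
    have e2 : |a2 * ((v.2 - w.2 : ℤ) : ℝ)| < 1 := by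
      refine lt_of_eq_of_lt ?_ e1
      push_cast
      congr 1
      ring
    rw [abs_mul] at e2
    have e3 : |((v.2 - w.2 : ℤ) : ℝ)| < 2 := by
      by_contra hcon
      push Not at hcon
      have := mul_le_mul h2 hcon (by norm_num) (abs_nonneg _)
      linarith
    have e4 : |v.2 - w.2| < 3 := by
      have : ((|v.2 - w.2| : ℤ) : ℝ) < 3 := by
        rw [Int.cast_abs]
        linarith
      exact_mod_cast this
    omega
  -- count
  set I : Finset ℤ := F.image Prod.fst with hI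
  have c1 : (I.card : ℝ) ≤ 5 / D := by
    have e1 : I ⊆ Finset.Icc (v0.1 - ⌊2 / D⌋) (v0.1 + ⌊2 / D⌋) := by
      intro x hx
      obtain ⟨v, hv, rfl⟩ := Finset.mem_image.mp hx
      have e2 := abs_le.mp (k1 v hv)
      have e3 : v.1 - v0.1 ≤ ⌊2 / D⌋ := Int.le_floor.mpr e2.2
      have e4 : v0.1 - v.1 ≤ ⌊2 / D⌋ := Int.le_floor.mpr (by
        have := e2.1
        push_cast at this ⊢
        linarith)
      rw [Finset.mem_Icc]
      constructor <;> omega
    have e5 := Finset.card_le_card e1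
    rw [Int.card_Icc] at e5
    have e6 : (0 : ℤ) ≤ ⌊2 / D⌋ := Int.floor_nonneg.mpr (by positivity)
    have e7 : ((v0.1 + ⌊2 / D⌋ + 1 - (v0.1 - ⌊2 / D⌋)).toNat : ℤ) = 2 * ⌊2 / D⌋ + 1 := by
      rw [Int.toNat_of_nonneg (by omega)]
      ring
    have e8 : (I.card : ℤ) ≤ 2 * ⌊2 / D⌋ + 1 := by
      rw [← e7]
      exact_mod_cast e5
    have e9 : (I.card : ℝ) ≤ 2 * (⌊2 / D⌋ : ℝ) + 1 := by exact_mod_cast e8
    have e10 := Int.floor_le (2 / D)
    have e11 : (1 : ℝ) ≤ 1 / D := by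
      rw [le_div_iff₀ hD]
      linarith
    have e12 : 5 / D = 2 * (2 / D) + 1 / D := by ring
    rw [e12]
    linarith
  have c2 : ∀ x ∈ I, (F.filter fun v => v.1 = x).card ≤ 5 := by
    intro x hx
    obtain ⟨w, hw, rfl⟩ := Finset.mem_image.mp hx
    have e1 : (F.filter fun v => v.1 = w.1).card ≤ ((Finset.Icc (w.2 - 2) (w.2 + 2))).card := by
      refine Finset.card_le_card_of_injOn (fun v => v.2) ?_ ?_
      · intro v hv
        have hv' := Finset.mem_filter.mp (Finset.mem_coe.mp hv)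
        have e2 := abs_le.mp (k2 v hv'.1 w hw hv'.2)
        rw [Finset.coe_Icc, Set.mem_Icc]
        constructor <;> linarith [e2.1, e2.2]
      · intro v hv v' hv' hvv
        have hv1 := Finset.mem_filter.mp (Finset.mem_coe.mp hv)
        have hv2 := Finset.mem_filter.mp (Finset.mem_coe.mp hv')
        exact Prod.ext (hv1.2.trans hv2.2.symm) hvv
    rw [Int.card_Icc] at e1
    have e3 : (w.2 + 2 + 1 - (w.2 - 2)).toNat = 5 := by
      have : w.2 + 2 + 1 - (w.2 - 2) = 5 := by ring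
      rw [this]
      rfl
    omega
  have c3 : F.card ≤ I.card * 5 := by
    rw [Finset.card_eq_sum_card_image Prod.fst F]
    exact Finset.sum_le_card_nsmul _ _ _ c2
  have c4 : (F.card : ℝ) ≤ I.card * 5 := by exact_mod_cast c3
  have c5 : 25 / D = 5 / D * 5 := by ring
  rw [c5]
  linarith

/-- Integer points in a parallelogram, no order of the coordinates. -/
theorem card_par' {a1 a2 b1 b2 D : ℝ} (ha1 : |a1| ≤ 1) (ha2 : |a2| ≤ 1) (hb1 : |b1| ≤ 1)
    (hb2 : |b2| ≤ 1) (hD : 0 < D) (hD1 : D ≤ 1) (hab : D ≤ |a1 * b2 - a2 * b1|)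
    (h2 : 1 / 2 ≤ |a1| ∨ 1 / 2 ≤ |a2|)
    (F : Finset (ℤ × ℤ)) (hF : ∀ v ∈ F, ∀ w ∈ F, ⌊a1 * v.1 + a2 * v.2⌋ = ⌊a1 * w.1 + a2 * w.2⌋ ∧
      ⌊b1 * v.1 + b2 * v.2⌋ = ⌊b1 * w.1 + b2 * w.2⌋) : (F.card : ℝ) ≤ 25 / D := by
  classical
  rcases h2 with h2 | h2
  · have h := card_par (F := F.image Prod.swap) ha2 ha1 hb2 hb1 hD hD1 (by
      rw [abs_sub_comm] at hab
      refine hab.trans (le_of_eq ?_)
      congr 1) h2 (by
      intro v hv w hw
      obtain ⟨v', hv', rfl⟩ := Finset.mem_image.mp hv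
      obtain ⟨w', hw', rfl⟩ := Finset.mem_image.mp hw
      obtain ⟨h3, h4⟩ := hF v' hv' w' hw'
      simp only [Prod.fst_swap, Prod.snd_swap]
      rw [add_comm (a2 * _), add_comm (a2 * _), add_comm (b2 * _), add_comm (b2 * _)]
      exact ⟨h3, h4⟩)
    rwa [Finset.card_image_of_injective _ Prod.swap_injective] at h
  · exact card_par ha1 ha2 hb1 hb2 hD hD1 hab h2 F hF

/-- **Fibres in two directions.** The covectors `a`, `b` are functions of the condition. -/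
theorem vec_two {Ω W : Type} [Fintype Ω] {p : Ω → ℝ} (hp : IsLaw p) (n : Ω → ℤ × ℤ)
    (Z : Ω → W) (a b : W → ℝ × ℝ) {D : ℝ} (hD : 0 < D) (hD1 : D ≤ 1)
    (ha : ∀ ω, 0 < p ω → |(a (Z ω)).1| ≤ 1 ∧ |(a (Z ω)).2| ≤ 1 ∧
      (1 / 2 ≤ |(a (Z ω)).1| ∨ 1 / 2 ≤ |(a (Z ω)).2|))
    (hb : ∀ ω, 0 < p ω → |(b (Z ω)).1| ≤ 1 ∧ |(b (Z ω)).2| ≤ 1)
    (hab : ∀ ω, 0 < p ω →
      D ≤ |(a (Z ω)).1 * (b (Z ω)).2 - (a (Z ω)).2 * (b (Z ω)).1|) :
    CH p n (fun ω => (⌊(a (Z ω)).1 * (n ω).1 + (a (Z ω)).2 * (n ω).2⌋, Z ω)) +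
      CH p n (fun ω => (⌊(b (Z ω)).1 * (n ω).1 + (b (Z ω)).2 * (n ω).2⌋, Z ω)) ≤
    CH p n Z + Real.log (25 / D) := by
  classical
  have h0 := hp.nonneg
  set A : Ω → ℤ := fun ω => ⌊(a (Z ω)).1 * (n ω).1 + (a (Z ω)).2 * (n ω).2⌋ with hA
  set B : Ω → ℤ := fun ω => ⌊(b (Z ω)).1 * (n ω).1 + (b (Z ω)).2 * (n ω).2⌋ with hB
  -- `A` is a function of `n` and `Z`
  have dA : ∀ {U : Type} (V : Ω → U), CH p n (fun ω => (V ω, Z ω)) =
      CH p A (fun ω => (V ω, Z ω)) + CH p n (fun ω => (A ω, (V ω, Z ω))) := by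
    intro U V
    rw [← CH_chain2 h0 A n (fun ω => (V ω, Z ω))]
    refine CH_congr h0 ?_ ?_ (fun _ _ _ _ h => h) (fun _ _ _ _ h => h)
    · intro ω ω' _ _ hz
      have h4 := Prod.ext_iff.mp hz
      have h5 : n ω = n ω' := h4.1
      have h6 : Z ω = Z ω' := (Prod.ext_iff.mp h4.2).2
      show (A ω, n ω) = (A ω', n ω')
      rw [hA]
      dsimp only
      rw [h5, h6]
    · intro ω ω' _ _ hz
      exact (Prod.ext_iff.mp (Prod.ext_iff.mp hz).1).2
  have h1 : CH p n Z = CH p A Z + CH p n (fun ω => (A ω, Z ω)) := by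
    rw [← CH_chain2 h0 A n Z]
    refine CH_congr h0 ?_ ?_ (fun _ _ _ _ h => h) (fun _ _ _ _ h => h)
    · intro ω ω' _ _ hz
      have h4 := Prod.ext_iff.mp hz
      have h5 : n ω = n ω' := h4.1
      have h6 : Z ω = Z ω' := h4.2
      show (A ω, n ω) = (A ω', n ω')
      rw [hA]
      dsimp only
      rw [h5, h6]
    · intro ω ω' _ _ hz
      exact (Prod.ext_iff.mp (Prod.ext_iff.mp hz).1).2
  have h2 := dA B
  have h3 : CH p A (fun ω => (B ω, Z ω)) ≤ CH p A Z :=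
    CH_mono_cond h0 fun ω ω' _ _ hz => (Prod.ext_iff.mp hz).2
  have h4 : CH p n (fun ω => (A ω, (B ω, Z ω))) ≤ Real.log (25 / D) := by
    have h5 := CH_le_card h0 hp.sum_one n (fun ω => (A ω, (B ω, Z ω)))
      (fun z => ((Finset.univ.filter fun ω => 0 < p ω ∧ (A ω, (B ω, Z ω)) = z).image n))
      (fun ω hω => Finset.mem_image.mpr ⟨ω, Finset.mem_filter.mpr ⟨Finset.mem_univ _, hω, rfl⟩, rfl⟩)
    refine h5.trans ?_
    rw [← Ex_const hp.sum_one (Real.log (25 / D))]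
    refine Ex_mono h0 fun ω hω => ?_
    have h6 : 0 < ((Finset.univ.filter fun ω' => 0 < p ω' ∧
        (A ω', (B ω', Z ω')) = (A ω, (B ω, Z ω))).image n).card :=
      Finset.card_pos.mpr ⟨n ω, Finset.mem_image.mpr
        ⟨ω, Finset.mem_filter.mpr ⟨Finset.mem_univ _, hω, rfl⟩, rfl⟩⟩
    refine Real.log_le_log (by exact_mod_cast h6) ?_
    obtain ⟨a1, a2, a3⟩ := ha ω hω
    obtain ⟨b1, b2⟩ := hb ω hω
    refine card_par' a1 a2 b1 b2 hD hD1 (hab ω hω) a3 _ ?_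
    have h7 : ∀ v ∈ (Finset.univ.filter fun ω' => 0 < p ω' ∧
        (A ω', (B ω', Z ω')) = (A ω, (B ω, Z ω))).image n,
        ⌊(a (Z ω)).1 * v.1 + (a (Z ω)).2 * v.2⌋ = A ω ∧
        ⌊(b (Z ω)).1 * v.1 + (b (Z ω)).2 * v.2⌋ = B ω := by
      intro v hv
      obtain ⟨ω', h8, rfl⟩ := Finset.mem_image.mp hv
      obtain ⟨-, -, h9⟩ := Finset.mem_filter.mp h8
      have h10 := Prod.ext_iff.mp h9
      have h11 := Prod.ext_iff.mp h10.2
      have h12 : Z ω' = Z ω := h11.2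
      have h13 : A ω' = A ω := h10.1
      have h14 : B ω' = B ω := h11.1
      rw [← h12, ← h13, ← h14]
      exact ⟨rfl, rfl⟩
    intro v hv w hw
    obtain ⟨v1, v2⟩ := h7 v hv
    obtain ⟨w1, w2⟩ := h7 w hw
    exact ⟨v1.trans w1.symm, v2.trans w2.symm⟩
  linarith

end Pool.VH64
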